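import Pool.Agent.GTO.StmtsB

/-! CT6: counts in a configuration. -/

namespace Pool.Agent.GTO.H84

open Finset
open scoped Classical

theorem cr_anti (u v : V) : cr u v = - cr v u := by
  ext i
  fin_cases i <;> simp [cr] <;> ring

theorem cr_ne_symm {u v : V} (h : cr u v ≠ 0) : cr v u ≠ 0 := by
  intro h1; apply h; rw [cr_anti, h1, neg_zero]

theorem dt_self_right (q w : V) : dt q w w = 0 := by
  simp only [dt]; ring

theorem ct6 (hB : BasStmt) (hT : TngStmt) (hL : Ln3Stmt) (hV : TgvStmt) : Ct6Stmt := by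
  intro ι _ a c G _ φ H hC
  have hmem : ∀ i, i ∈ QQ a c φ H ↔ Ns c (a i) ∧ φ (a i) ∈ H := by
    intro i; simp [QQ]
  have hinj : ∀ i ∈ QQ a c φ H, ∀ j ∈ QQ a c φ H, φ (a i) = φ (a j) → i = j := by
    intro i hi j hj h
    by_contra hne
    exact hC.pi i j hne ((hC.grp.par _ _ ((hmem i).1 hi).1 ((hmem j).1 hj).1).1 h)
  refine ⟨?_, ?_, ?_, ?_, ?_⟩
  · intro μ hμ
    obtain ⟨v, hv, hvμ⟩ := hC.pts μ hμ
    refine hT c v hC.nl hv.1 ι _ a ?_ ?_
    · intro i hi
      rw [mem_filter] at hi
      have h1 := ((hmem i).1 hi.1).1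
      refine ⟨h1.2.1, hV c G φ hC.grp (a i) v h1 hv ?_⟩
      rw [hvμ]; exact hi.2
    · intro i _ j _ hij
      exact hC.pi i j hij
  · intro w hw
    refine hT c w hC.nl hw ι _ a ?_ ?_
    · intro i hi
      rw [mem_filter] at hi
      exact ⟨((hmem i).1 hi.1).1.2.1, hi.2⟩
    · intro i _ j _ hij
      exact hC.pi i j hij
  · intro w q hw hqw hne
    set s := (QQ a c φ H).filter fun i => dt q w (a i) = 0 with hs
    have key := hL c (cr q w) hC.nl hqw (Option ι) (insert none (s.map Function.Embedding.some))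
      (fun o => o.elim w a) ?_ ?_
    · rw [card_insert_of_notMem (by simp), card_map] at key
      omega
    · intro o ho
      rw [(hB.1 _ _ _).1]
      rw [mem_insert, mem_map] at ho
      rcases ho with rfl | ⟨i, hi, rfl⟩
      · exact ⟨hw, dt_self_right q w⟩
      · rw [hs, mem_filter] at hi
        exact ⟨((hmem i).1 hi.1).1.2.1, hi.2⟩
    · intro o ho o' ho' hoo
      rw [mem_insert, mem_map] at ho ho'
      rcases ho with rfl | ⟨i, hi, rfl⟩
      · rcases ho' with rfl | ⟨j, hj, rfl⟩
        · exact absurd rfl hoo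
        · rw [hs, mem_filter] at hj
          exact cr_ne_symm (hne j hj.1)
      · rw [hs, mem_filter] at hi
        rcases ho' with rfl | ⟨j, hj, rfl⟩
        · exact hne i hi.1
        · refine hC.pi i j ?_
          intro h; apply hoo; rw [h]
  · have h1 : ((QQ a c φ H).image fun i => φ (a i)).card = (QQ a c φ H).card := by
      apply card_image_of_injOn
      intro i hi j hj h
      exact hinj i hi j hj h
    have h2 : H = ((QQ a c φ H).image fun i => φ (a i)) ∪ MM a c φ H := by
      ext h
      rw [mem_union, mem_image, MM, mem_filter]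
      constructor
      · intro hh
        by_cases hx : ∃ i ∈ QQ a c φ H, φ (a i) = h
        · left; obtain ⟨i, hi, hi2⟩ := hx; exact ⟨i, hi, hi2⟩
        · right
          refine ⟨hh, ?_⟩
          intro i hi hi2; exact hx ⟨i, hi, hi2⟩
      · rintro (⟨i, hi, rfl⟩ | hh)
        · exact ((hmem i).1 hi).2
        · exact hh.1
    have h3 : Disjoint ((QQ a c φ H).image fun i => φ (a i)) (MM a c φ H) := by
      rw [Finset.disjoint_left]
      intro h hh hm
      rw [mem_image] at hh
      rw [MM, mem_filter] at hm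
      obtain ⟨i, hi, hi2⟩ := hh
      exact hm.2 i hi hi2
    rw [← h1, ← card_union_of_disjoint h3, ← h2]
  · intro i hi j hj k hk hij hjk hki
    have h1 := hC.grp.col (a i) (a j) (a k) ((hmem i).1 hi).1 ((hmem j).1 hj).1 ((hmem k).1 hk).1
      (hC.pi i j hij) (hC.pi j k hjk) (hC.pi k i hki)
    rw [← h1]
    simp [ln]

end Pool.Agent.GTO.H84
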