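import Pool.Agent.GTO.StmtsB

/-! FIN: the final count. -/

namespace Pool.Agent.GTO.H84

open Finset
open scoped Classical

theorem ln_symm (hB : BasStmt) {ι : Type} [Fintype ι] (a : ι → V) (i j : ι) :
    ln a i j = ln a j i := by
  ext k
  simp only [ln, mem_filter, mem_univ, true_and]
  have h := (hB.1 (a i) (a j) (a k)).2.2
  constructor
  · intro h1; linarith
  · intro h1; linarith

theorem fin (hB : BasStmt) (hQ : QzbStmt) (hM : MisStmt) (hT : TanStmt) (hD : DijStmt)
    (hL : LczStmt) : FinStmt := by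
  intro ι _ a c G _ φ H hC hn hz hm
  have q1 := hQ ι a c G φ H hC
  have m1 := hM ι a c G φ H hC
  have t1 := hT ι a c G φ H hC
  obtain ⟨d1, d2, d3, d4⟩ := hD ι a c G φ H hC
  have l1 := hL ι a c G φ H hC
  set Q := QQ a c φ H with hQdef
  set M := MM a c φ H with hMdef
  set A := MISo a c φ H with hA
  set B := TANo a c φ H with hBd
  set C := TANs a c φ H with hCd
  set n := Fintype.card ι with hndef
  have hQn : Q.card ≤ n := card_le_univ _
  have hz2 : (univ \ Q).card = n - Q.card := by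
    rw [card_sdiff_of_subset (subset_univ _), card_univ]
  -- the pairs outside, inside
  set S1 := ((univ \ Q) ×ˢ Q).filter (fun p : ι × ι => ¬ (ln a p.1 p.2).card = 3) with hS1
  set S1' := ((univ \ Q) ×ˢ Q).filter (fun p : ι × ι => (ln a p.1 p.2).card = 3) with hS1'
  have e1 : S1'.card + S1.card = (n - Q.card) * Q.card := by
    rw [hS1, hS1', card_filter_add_card_filter_not, card_product, hz2]
  have e2 : S1'.card ≤ (n - Q.card) * ((n - Q.card - 1) + 2 * M.card + 12) := by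
    have h : S1'.card = ∑ q ∈ univ \ Q, (Q.filter fun i => (ln a q i).card = 3).card := by
      rw [hS1']
      simp only [card_filter, sum_product]
    rw [h, ← hz2]
    refine (sum_le_card_nsmul _ _ ((n - Q.card - 1) + 2 * M.card + 12) ?_).trans (by simp [hz2])
    intro q hq
    have := q1 q (by simpa using hq)
    exact this
  -- the swapped pairs
  set S2 := S1.map (Equiv.prodComm ι ι).toEmbedding with hS2
  have e3 : S2.card = S1.card := by rw [hS2, card_map]
  set T := (A ∪ B ∪ C) with hTT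
  set S3 := T.filter (fun p => ¬ (ln a p.1 p.2).card = 3) with hS3
  set S3' := T.filter (fun p => (ln a p.1 p.2).card = 3) with hS3'
  have e4 : S3'.card + S3.card = T.card := by
    rw [hS3, hS3', card_filter_add_card_filter_not]
  have e5 : T.card = A.card + B.card + B.card := by
    rw [hTT, card_union_of_disjoint, card_union_of_disjoint d1, d4]
    rw [disjoint_union_left]; exact ⟨d2, d3⟩
  have e6 : S3'.card ≤ (n - Q.card) * (2 * M.card + 12) := l1
  have hTsub : ∀ p ∈ T, p.1 ∈ Q ∧ p.2 ∈ Q ∧ p.1 ≠ p.2 := by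
    intro p hp
    rw [hTT, mem_union, mem_union] at hp
    rcases hp with (hp | hp) | hp
    · rw [hA, MISo, mem_filter] at hp; exact ⟨hp.2.1, hp.2.2.1, hp.2.2.2.1⟩
    · rw [hBd, TANo, mem_filter] at hp; exact ⟨hp.2.1, hp.2.2.1, hp.2.2.2.1⟩
    · rw [hCd, TANs, mem_filter] at hp; exact ⟨hp.2.1, hp.2.2.1, hp.2.2.2.1⟩
  have m_1 : ∀ p ∈ S1, p.1 ∉ Q ∧ p.2 ∈ Q ∧ ¬ (ln a p.1 p.2).card = 3 := by
    intro p hp
    rw [hS1, mem_filter, mem_product, mem_sdiff] at hp
    exact ⟨hp.1.1.2, hp.1.2, hp.2⟩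
  have m_2 : ∀ p ∈ S2, p.1 ∈ Q ∧ p.2 ∉ Q ∧ ¬ (ln a p.1 p.2).card = 3 := by
    intro p hp
    rw [hS2, mem_map] at hp
    obtain ⟨x, hx, rfl⟩ := hp
    obtain ⟨h1, h2, h3⟩ := m_1 x hx
    refine ⟨h2, h1, ?_⟩
    have : ln a ((Equiv.prodComm ι ι).toEmbedding x).1 ((Equiv.prodComm ι ι).toEmbedding x).2
      = ln a x.1 x.2 := ln_symm hB a _ _
    rw [this]; exact h3
  have m_3 : ∀ p ∈ S3, p.1 ∈ Q ∧ p.2 ∈ Q ∧ p.1 ≠ p.2 ∧ ¬ (ln a p.1 p.2).card = 3 := by
    intro p hp
    rw [hS3, mem_filter] at hp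
    obtain ⟨h1, h2, h3⟩ := hTsub p hp.1
    exact ⟨h1, h2, h3, hp.2⟩
  have e7 : S1.card + S2.card + S3.card ≤ D2 a := by
    have h12 : Disjoint S1 S2 := by
      rw [Finset.disjoint_left]; intro p h1 h2
      exact (m_1 p h1).1 (m_2 p h2).1
    have h13 : Disjoint (S1 ∪ S2) S3 := by
      rw [Finset.disjoint_left]; intro p h1 h2
      rw [mem_union] at h1
      rcases h1 with h1 | h1
      · exact (m_1 p h1).1 (m_3 p h2).1
      · exact (m_2 p h1).2.1 (m_3 p h2).2.1
    rw [← card_union_of_disjoint h12, ← card_union_of_disjoint h13, D2]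
    refine card_le_card ?_
    intro p hp
    rw [mem_filter]
    refine ⟨mem_univ _, ?_⟩
    rw [mem_union, mem_union] at hp
    rcases hp with (hp | hp) | hp
    · obtain ⟨h1, h2, h3⟩ := m_1 p hp
      refine ⟨?_, h3⟩
      intro h; rw [h] at h1; exact h1 h2
    · obtain ⟨h1, h2, h3⟩ := m_2 p hp
      refine ⟨?_, h3⟩
      intro h; rw [h] at h1; exact h2 h1
    · obtain ⟨h1, h2, h3, h4⟩ := m_3 p hp
      exact ⟨h3, h4⟩
  -- arithmetic
  obtain ⟨z, hzd⟩ : ∃ z, n = Q.card + z := ⟨n - Q.card, by omega⟩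
  have hz3 : n - Q.card = z := by omega
  rw [hz3] at e1 e2 e6
  set x := Q.card with hx
  set m := M.card with hmm
  have hz4 : z ≤ 685 := by omega
  -- integers
  have hz5 : z * ((z - 1) + 2 * m + 12) ≤ z * (z + 2 * m + 11) := by
    rcases Nat.eq_zero_or_pos z with h | h
    · rw [h]; simp
    · apply Nat.mul_le_mul_left; omega
  have f1 : (z : ℤ) * x ≤ S1.card + z * (z + 2 * m + 11) := by
    have : z * x ≤ S1.card + z * (z + 2 * m + 11) := by omega
    exact_mod_cast this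
  have f2 : (m : ℤ) * x ≤ A.card + m * (m + 6) := by exact_mod_cast m1
  have f3 : (x : ℤ) ≤ B.card + 3 + 6 * m := by exact_mod_cast t1
  have f4 : (A.card : ℤ) + B.card + B.card ≤ S3.card + z * (2 * m + 12) := by
    have : A.card + B.card + B.card ≤ S3.card + z * (2 * m + 12) := by omega
    exact_mod_cast this
  have f5 : (S1.card : ℤ) + S1.card + S3.card ≤ D2 a := by
    have : S1.card + S1.card + S3.card ≤ D2 a := by rw [e3] at e7; exact e7
    exact_mod_cast this
  have hnx : (n : ℤ) = x + z := by exact_mod_cast hzd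
  have hx1 : (119000 : ℤ) ≤ x := by omega
  have hzz : (z : ℤ) ≤ 685 := by exact_mod_cast hz4
  have hmm2 : (m : ℤ) ≤ 458 := by exact_mod_cast hm
  have hz0 : (0 : ℤ) ≤ z := Int.natCast_nonneg _
  have hm0 : (0 : ℤ) ≤ m := Int.natCast_nonneg _
  have p1 : (0 : ℤ) ≤ z * (x - z - 3 * m - 18) := mul_nonneg hz0 (by linarith)
  have p2 : (0 : ℤ) ≤ m * (x - m - 18) := mul_nonneg hm0 (by linarith)
  have goal : (2 : ℤ) * n ≤ D2 a + 6 := by
    rw [hnx]
    nlinarith [p1, p2, f1, f2, f3, f4, f5]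
  exact_mod_cast goal

end Pool.Agent.GTO.H84
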