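import Pool.Agent.GTO.StmtsB

/-! ORC: the theorem in the frozen format. -/

namespace Pool.Agent.GTO.H84

open Finset
open scoped Classical

theorem orc (hG : GmnStmt) (hF : FrmStmt) (hE : ExiStmt) : OrcStmt := by
  intro n hn
  refine ⟨hE n (by omega), ?_⟩
  intro P hP
  obtain ⟨h1, h2⟩ := hF P
  have hc : Fintype.card {x // x ∈ P} = n := by rw [Fintype.card_coe]; exact hP
  have h3 := hG {x // x ∈ P} (fun p : {x // x ∈ P} => hom p.1) h1 (by rw [hc]; exact hn)
  rw [hc] at h3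
  rw [hP] at h2
  have h4 : n * (n - 1) = n * (n - 3) + 2 * n := by
    obtain ⟨m, rfl⟩ : ∃ m, n = m + 3 := ⟨n - 3, by omega⟩
    have e1 : m + 3 - 1 = m + 2 := by omega
    have e2 : m + 3 - 3 = m := by omega
    rw [e1, e2]; ring
  have h5 : 6 * (T3 P).ncard ≤ n * (n - 3) + 6 := by omega
  omega

end Pool.Agent.GTO.H84
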